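import Pool.Agent.KDS.StmtsA

/-! Squad KDS, row RED: reduction of a monomial at a node. -/

set_option autoImplicit false

noncomputable section

namespace Pool.Agent.KDS.H10

open Polynomial NumberField H58Q Pool.Agent.SZT Pool.Agent.KDT Pool.Agent.KDS

section R

variable {E : Type} [Field E] (w : AbsoluteValue E ℝ) (g : E[X]) (δ : ℝ)

/-- the monomials as functions -/
def MV (a b c d : ℕ) : (Fin 4 → E) → E := fun u => u 0 ^ a * u 1 ^ b * u 2 ^ c * u 3 ^ d

/-- reduced representation of a function of level `J` -/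
def RR (κ J : ℕ) (F : (Fin 4 → E) → E) : Prop :=
  ∃ a : Ex κ → E, (∀ u, quart g u = 0 → F u = ∑ e, a e * mon e.1 u) ∧
    ∀ (e : Ex κ) (σ : ℝ), 0 ≤ σ → σ ≤ 1 / 2 →
      w (a e) ≤ Real.exp (-δ * (((jj e.1 : ℝ) - (J : ℝ)) * σ))

variable {w g δ}

theorem rr_add (hna : IsNonarchimedean w) {κ J : ℕ} {F G : (Fin 4 → E) → E}
    (h : RR w g δ κ J F) (h' : RR w g δ κ J G) : RR w g δ κ J (F + G) := by
  obtain ⟨a, ha, hb⟩ := h
  obtain ⟨a', ha', hb'⟩ := h'
  refine ⟨fun e => a e + a' e, ?_, ?_⟩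
  · intro u hu
    show F u + G u = _
    rw [ha u hu, ha' u hu, ← Finset.sum_add_distrib]
    refine Finset.sum_congr rfl fun e _ => ?_
    rw [add_mul]
  · intro e σ h0 h1
    exact (hna _ _).trans (max_le (hb e σ h0 h1) (hb' e σ h0 h1))

theorem rr_term (hδ : 0 < δ) {κ J J' n : ℕ} {c : E} {F : (Fin 4 → E) → E}
    (h : RR w g δ κ J' F) (hc : w c ≤ Real.exp (-δ / 2) ^ n) (hJ : J' ≤ J + n) :
    RR w g δ κ J (c • F) := by
  obtain ⟨a, ha, hb⟩ := h
  refine ⟨fun e => c * a e, ?_, ?_⟩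
  · intro u hu
    show c * F u = _
    rw [ha u hu, Finset.mul_sum]
    refine Finset.sum_congr rfl fun e _ => ?_
    rw [mul_assoc]
  · intro e σ h0 h1
    have h2 : w (c * a e) ≤ Real.exp (-δ / 2) ^ n *
        Real.exp (-δ * (((jj e.1 : ℝ) - (J' : ℝ)) * σ)) := by
      rw [map_mul]
      exact mul_le_mul hc (hb e σ h0 h1) (apply_nonneg w _) (by positivity)
    refine h2.trans ?_
    rw [← Real.exp_nat_mul, ← Real.exp_add]
    apply Real.exp_le_exp.2
    have hJ' : (J' : ℝ) ≤ (J : ℝ) + (n : ℝ) := by exact_mod_cast hJ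
    have hn : (0 : ℝ) ≤ (n : ℝ) := Nat.cast_nonneg n
    have h3 : ((J' : ℝ) - J) * σ ≤ (n : ℝ) / 2 := by nlinarith
    have h4 : δ * (((J' : ℝ) - J) * σ) ≤ δ * ((n : ℝ) / 2) := mul_le_mul_of_nonneg_left h3 hδ.le
    nlinarith

theorem rr_congr {κ J : ℕ} {F G : (Fin 4 → E) → E} (h : RR w g δ κ J G)
    (hFG : ∀ u, quart g u = 0 → F u = G u) : RR w g δ κ J F := by
  obtain ⟨a, ha, hb⟩ := h
  exact ⟨a, fun u hu => (hFG u hu).trans (ha u hu), hb⟩

theorem mon4 (e : Fin 4 → ℕ) (u : Fin 4 → E) :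
    mon e u = u 0 ^ e 0 * u 1 ^ e 1 * u 2 ^ e 2 * u 3 ^ e 3 := by
  unfold mon
  rw [Fin.prod_univ_four]

theorem rr_base {κ a b c d : ℕ} (hκ : a + b + c + d = κ) (hbd : b ≤ 1 ∨ d ≤ 1) :
    RR w g δ κ (a + b) (MV a b c d) := by
  classical
  have hmem : ![a, b, c, d] ∈ Ex κ := by
    unfold Ex
    rw [Finset.mem_filter, Fintype.mem_piFinset]
    refine ⟨?_, ?_, ?_⟩
    · intro i
      rw [Finset.mem_range]
      fin_cases i
      · show a < κ + 1
        omega
      · show b < κ + 1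
        omega
      · show c < κ + 1
        omega
      · show d < κ + 1
        omega
    · exact hκ
    · exact hbd
  refine ⟨fun e => if e = ⟨![a, b, c, d], hmem⟩ then 1 else 0, ?_, ?_⟩
  · intro u _
    rw [Finset.sum_eq_single (⟨![a, b, c, d], hmem⟩ : Ex κ)]
    · beta_reduce
      rw [if_pos rfl, one_mul, mon4]
      rfl
    · intro e _ he
      beta_reduce
      rw [if_neg he, zero_mul]
    · intro h
      exact absurd (Finset.mem_univ _) h
  · intro e σ _ _
    beta_reduce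
    by_cases he : e = ⟨![a, b, c, d], hmem⟩
    · rw [if_pos he, map_one, he]
      have h1 : jj ![a, b, c, d] = a + b := rfl
      rw [h1, sub_self, zero_mul, mul_zero, Real.exp_zero]
    · rw [if_neg he, map_zero]
      exact (Real.exp_pos _).le

theorem red_aux (hN : NdC w g δ) (κ : ℕ) : ∀ (μ a b c d : ℕ),
    a + b + c + d = κ → (κ + 1) * (b + 2 * c + 3 * d) + b ≤ μ →
    RR w g δ κ (a + b) (MV a b c d) := by
  intro μ
  induction μ using Nat.strong_induction_on with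
  | _ μ ih =>
  intro a b c d hκ hμ
  by_cases hbd : b ≤ 1 ∨ d ≤ 1
  · exact rr_base hκ hbd
  · push Not at hbd
    obtain ⟨b', rfl⟩ := Nat.exists_eq_add_of_le' (show 2 ≤ b by omega)
    obtain ⟨d', rfl⟩ := Nat.exists_eq_add_of_le' (show 2 ≤ d by omega)
    have hna := hN.na
    -- the general step
    have step : ∀ (n : ℕ) (cc : E) (x y z t : ℕ), x + y + z + t = κ →
        (y + 2 * z + 3 * t < b' + 2 + 2 * c + 3 * (d' + 2) ∨
          (y + 2 * z + 3 * t = b' + 2 + 2 * c + 3 * (d' + 2) ∧ y < b' + 2)) →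
        w cc ≤ Real.exp (-δ / 2) ^ n → x + y ≤ a + (b' + 2) + n →
        RR w g δ κ (a + (b' + 2)) (cc • (MV x y z t : (Fin 4 → E) → E)) := by
      intro n cc x y z t hs hlt hc hJ
      have hmu : (κ + 1) * (y + 2 * z + 3 * t) + y < μ := by
        refine lt_of_lt_of_le ?_ hμ
        rcases hlt with h | ⟨h, h'⟩
        · have h1 : (κ + 1) * (y + 2 * z + 3 * t + 1) ≤ (κ + 1) * (b' + 2 + 2 * c + 3 * (d' + 2)) :=
            Nat.mul_le_mul_left _ h
          have h2 : (κ + 1) * (y + 2 * z + 3 * t + 1) = (κ + 1) * (y + 2 * z + 3 * t) + (κ + 1) := by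
            ring
          omega
        · rw [h]
          omega
      exact rr_term hN.pos (ih _ hmu x y z t hs le_rfl) hc hJ
    -- bounds for the coefficients
    have w1 : w 1 = 1 := map_one w
    have w2 : w 2 ≤ 1 := by
      have h := hna 1 1
      rw [w1, max_self] at h
      have e : (2 : E) = 1 + 1 := by norm_num
      rw [e]
      exact h
    have w4 : w 4 ≤ 1 := by
      have e : (4 : E) = 2 * 2 := by norm_num
      rw [e, map_mul]
      exact mul_le_one₀ w2 (apply_nonneg w _) w2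
    have wm : w (-1) = 1 := by rw [AbsoluteValue.map_neg, w1]
    have g1 := hN.c1
    have g2 := hN.c2
    have g3 := hN.c3
    have g4 := hN.c4
    have hx : Real.exp (-δ / 2) ≤ 1 := by
      rw [← Real.exp_zero]
      apply Real.exp_le_exp.2
      have := hN.pos
      linarith
    have hx0 : 0 ≤ Real.exp (-δ / 2) := (Real.exp_pos _).le
    have g1' : w (g.coeff 1) ≤ 1 := g1.trans hx
    have m1 : ∀ x y : E, w x ≤ 1 → w y ≤ 1 → w (x * y) ≤ 1 := by
      intro x y h h'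
      rw [map_mul]
      exact mul_le_one₀ h (apply_nonneg w _) h'
    have mx : ∀ x y : E, w x ≤ 1 → w y ≤ Real.exp (-δ / 2) → w (x * y) ≤ Real.exp (-δ / 2) := by
      intro x y h h'
      rw [map_mul]
      calc w x * w y ≤ 1 * Real.exp (-δ / 2) :=
            mul_le_mul h h' (apply_nonneg w _) zero_le_one
        _ = _ := one_mul _
    have mx' : ∀ x y : E, w x ≤ Real.exp (-δ / 2) → w y ≤ 1 → w (x * y) ≤ Real.exp (-δ / 2) := by
      intro x y h h'
      rw [mul_comm]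
      exact mx y x h' h
    have sub1 : ∀ x y : E, w x ≤ 1 → w y ≤ 1 → w (x - y) ≤ 1 := by
      intro x y h h'
      have h2 := hna x (-y)
      rw [AbsoluteValue.map_neg, ← sub_eq_add_neg] at h2
      exact h2.trans (max_le h h')
    have i0 : ∀ x : E, w x ≤ 1 → w x ≤ Real.exp (-δ / 2) ^ 0 := by
      intro x h
      rw [pow_zero]
      exact h
    have i1 : ∀ x : E, w x ≤ Real.exp (-δ / 2) → w x ≤ Real.exp (-δ / 2) ^ 1 := by
      intro x h
      rw [pow_one]
      exact h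
    have b7 : w (-(g.coeff 1) ^ 2) ≤ Real.exp (-δ / 2) ^ 2 := by
      rw [AbsoluteValue.map_neg, map_pow]
      exact pow_le_pow_left₀ (apply_nonneg w _) g1 2
    have b10 : w (4 * g.coeff 2 * g.coeff 4 - 2 * g.coeff 1 - g.coeff 3 ^ 2) ≤ 1 := by
      refine sub1 _ _ (sub1 _ _ (m1 _ _ (m1 _ _ w4 g2) g4) (m1 _ _ w2 g1')) ?_
      rw [map_pow]
      exact pow_le_one₀ (apply_nonneg w _) g3
    have hid : ∀ u : Fin 4 → E, quart g u = 0 → MV a (b' + 2) c (d' + 2) u =
        ((4 : E) • MV (a + 1) b' (c + 1) (d' + 2) +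
        (2 * g.coeff 1) • MV (a + 2) (b' + 1) c (d' + 1) +
        (4 * g.coeff 2) • MV (a + 2) b' (c + 1) (d' + 1) +
        (2 * g.coeff 3) • MV (a + 1) (b' + 1) (c + 1) (d' + 1) +
        (4 * g.coeff 4) • MV (a + 1) b' (c + 2) (d' + 1) +
        (2 : E) • MV a (b' + 1) (c + 2) (d' + 1) +
        (-(g.coeff 1) ^ 2) • MV (a + 4) b' c d' +
        (2 * g.coeff 1 * g.coeff 3) • MV (a + 3) b' (c + 1) d' +
        (4 * g.coeff 1 * g.coeff 4) • MV (a + 2) (b' + 1) (c + 1) d' +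
        (4 * g.coeff 2 * g.coeff 4 - 2 * g.coeff 1 - g.coeff 3 ^ 2) • MV (a + 2) b' (c + 2) d' +
        (4 * g.coeff 1) • MV (a + 1) (b' + 2) (c + 1) d' +
        (4 * g.coeff 2) • MV (a + 1) (b' + 1) (c + 2) d' +
        (2 * g.coeff 3) • MV (a + 1) b' (c + 3) d' +
        (-1 : E) • MV a b' (c + 4) d' : (Fin 4 → E) → E) u := by
      intro u hq
      have h0 := hN.c0
      unfold quart at hq
      rw [h0] at hq
      simp only [Pi.add_apply, Pi.smul_apply, smul_eq_mul, MV]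
      linear_combination (u 0 ^ a * u 1 ^ b' * u 2 ^ c * u 3 ^ d') * hq
    refine rr_congr ?_ hid
    refine rr_add hna (rr_add hna (rr_add hna (rr_add hna (rr_add hna (rr_add hna (rr_add hna
      (rr_add hna (rr_add hna (rr_add hna (rr_add hna (rr_add hna (rr_add hna ?_ ?_) ?_) ?_) ?_)
      ?_) ?_) ?_) ?_) ?_) ?_) ?_) ?_) ?_
    · exact step 0 _ _ _ _ _ (by omega) (by omega) (i0 _ w4) (by omega)
    · exact step 1 _ _ _ _ _ (by omega) (by omega) (i1 _ (mx _ _ w2 g1)) (by omega)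
    · exact step 0 _ _ _ _ _ (by omega) (by omega) (i0 _ (m1 _ _ w4 g2)) (by omega)
    · exact step 0 _ _ _ _ _ (by omega) (by omega) (i0 _ (m1 _ _ w2 g3)) (by omega)
    · exact step 0 _ _ _ _ _ (by omega) (by omega) (i0 _ (m1 _ _ w4 g4)) (by omega)
    · exact step 0 _ _ _ _ _ (by omega) (by omega) (i0 _ w2) (by omega)
    · exact step 2 _ _ _ _ _ (by omega) (by omega) b7 (by omega)
    · exact step 1 _ _ _ _ _ (by omega) (by omega) (i1 _ (mx' _ _ (mx _ _ w2 g1) g3)) (by omega)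
    · exact step 1 _ _ _ _ _ (by omega) (by omega) (i1 _ (mx' _ _ (mx _ _ w4 g1) g4)) (by omega)
    · exact step 0 _ _ _ _ _ (by omega) (by omega) (i0 _ b10) (by omega)
    · exact step 1 _ _ _ _ _ (by omega) (by omega) (i1 _ (mx _ _ w4 g1)) (by omega)
    · exact step 0 _ _ _ _ _ (by omega) (by omega) (i0 _ (m1 _ _ w4 g2)) (by omega)
    · exact step 0 _ _ _ _ _ (by omega) (by omega) (i0 _ (m1 _ _ w2 g3)) (by omega)
    · exact step 0 _ _ _ _ _ (by omega) (by omega) (i0 _ wm.le) (by omega)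

end R

theorem red : RedStatement := by
  intro E _ w g δ hN κ e hκ
  obtain ⟨a, ha, hb⟩ := red_aux hN κ _ (e 0) (e 1) (e 2) (e 3) hκ le_rfl
  refine ⟨a, ?_, ?_⟩
  · intro u hu
    rw [← ha u hu, mon4]
    rfl
  · intro e' σ h0 h1
    have h := hb e' σ h0 h1
    have e1 : -δ * ((fun σ => ((κ : ℝ) - jj e) * σ) σ - ((κ : ℝ) - jj e'.1) * σ) =
        -δ * (((jj e'.1 : ℝ) - ((e 0 + e 1 : ℕ) : ℝ)) * σ) := by
      show -δ * (((κ : ℝ) - (jj e : ℕ)) * σ - ((κ : ℝ) - jj e'.1) * σ) = _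
      have h2 : jj e = e 0 + e 1 := rfl
      rw [h2]
      ring
    rw [e1]
    exact h

end Pool.Agent.KDS.H10
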